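import Pool.Agent.H933.RN.Stm
import Pool.Graph.R_seed8.W610.HY.Reduct

/-!
# MP_49c4d9_an (helper933, RN): the statement `P_sc`

The minimal dimension principle for reductive operators with compact self-commutator and
polynomials. The proof is adapted from `Pool.Agent.W610.HY.Reduct.main`.
-/

set_option autoImplicit false

open MeasureTheory Metric Polynomial
open scoped InnerProductSpace

namespace Pool.Agent.H388.RN

open Pool.Agent.W402.HI Pool.Agent.W706.HIR Pool.Agent.H933.RN

theorem p_sc : P_sc := by
  intro H _ _ _ T q hred hsc hR
  have hkey : ∀ x ∈ (⊤ : Submodule ℂ H), sc T x = 0 := by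
    refine key hred hsc (hyper_top T) ?_
    intro V hV hVM
    have : CompleteSpace V := hV.1.completeSpace_coe
    have hVS : ∀ x ∈ V, ContinuousLinearMap.adjoint T x ∈ V := hred V hV.1 hV.inv
    have hR' := hR V hV
    set TV := T.restrict hV.inv with hTV
    by_cases hnt : (spectrum ℂ TV).Nontrivial
    · right
      rcases hR' hnt with h | h
      · obtain ⟨M, hMc, hM0, hM1, hMQ⟩ := h
        exact ⟨M, hMc, hM0, hM1,
          fun Q hQ => hMQ Q (Pool.Agent.K4H63.RD.cent_aeval _ q Q hQ)⟩
      · exact h
    · rw [Set.not_nontrivial_iff] at hnt
      rcases subsingleton_or_nontrivial V with hs | hn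
      · left
        refine ⟨0, ?_⟩
        ext x
        have : x = 0 := Subsingleton.elim _ _
        rw [this, map_zero, map_zero]
      · obtain ⟨c, hc⟩ := spectrum.nonempty TV
        have hcs : spectrum ℂ TV = {c} := hnt.eq_singleton_of_mem hc
        set B : V →L[ℂ] V := TV - c • (1 : V →L[ℂ] V) with hB
        have hBs : spectrum ℂ B ⊆ {0} := by
          have h2 : B = TV - algebraMap ℂ (V →L[ℂ] V) c := by
            rw [Algebra.algebraMap_eq_smul_one]
          rw [h2, ← spectrum.sub_singleton_eq, hcs]
          simp
        have hTVadj : ContinuousLinearMap.adjoint TV =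
            (ContinuousLinearMap.adjoint T).restrict hVS :=
          Pool.Agent.W610.HY.Reduct.adj_restrict hV.inv hVS
        have hscV : ∀ x ∈ V, sc T x ∈ V := fun x hx =>
          V.sub_mem (hVS _ (hV.inv _ hx)) (hV.inv _ (hVS _ hx))
        have hscB : sc B = (sc T).restrict hscV := by
          have h3 : sc B = sc TV := by
            unfold sc
            have h4 : ContinuousLinearMap.adjoint B =
                ContinuousLinearMap.adjoint TV - (starRingEnd ℂ c) • (1 : V →L[ℂ] V) := by
              rw [hB, ← ContinuousLinearMap.star_eq_adjoint, ← ContinuousLinearMap.star_eq_adjoint,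
                star_sub, star_smul, star_one]
              rfl
            rw [h4, hB]
            simp only [sub_mul, mul_sub, smul_mul_assoc, mul_smul_comm, one_mul, mul_one, smul_sub]
            rw [smul_comm c (starRingEnd ℂ c)]
            abel
          rw [h3]
          ext x
          unfold sc
          rw [hTVadj]
          rfl
        have hBc : IsCompactOperator (sc B) := by
          rw [hscB]
          exact IsCompactOperator.restrict' (f := (sc T : H →ₗ[ℂ] H)) hsc hscV
        have hBcomp : IsCompactOperator B := compact_of_quasinilpotent B hBc hBs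
        by_cases hsca : IsScalar B
        · left
          obtain ⟨a, ha⟩ := hsca
          refine ⟨a + c, ?_⟩
          rw [add_smul, ← ha, hB]
          abel
        · right
          obtain ⟨W, hW1, hW2, hW3, hW4⟩ := Pool.Agent.W577.HI.G1.main V B hBcomp hsca
          refine ⟨W, hW1, hW2, hW3, ?_⟩
          intro Q hQ x hx
          refine hW4 Q ?_ x hx
          rw [hB, mul_sub, sub_mul, hQ, mul_smul_comm, smul_mul_assoc, one_mul, mul_one]
  have h : sc T = 0 := by
    ext x
    rw [hkey x trivial]
    rfl
  constructor
  rw [Commute, SemiconjBy, ContinuousLinearMap.star_eq_adjoint]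
  exact sub_eq_zero.1 h

end Pool.Agent.H388.RN
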